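import Pool.Agent.L5helper59.DC.Defs

/-!
The permanent of a block matrix with an identity corner.
-/

namespace L5helper67.DC

open Finset MvPolynomial L5helper59.DC

theorem permanent_corner {R : Type*} [CommRing R] {m m'' : ℕ} (h : m'' ≤ m)
    (N : Matrix (Fin m) (Fin m) R) (N' : Matrix (Fin m'') (Fin m'') R)
    (h1 : ∀ i j : Fin m'', N (Fin.castLE h i) (Fin.castLE h j) = N' i j)
    (h2 : ∀ i j : Fin m, m'' ≤ (j : ℕ) → N i j = if i = j then 1 else 0) :
    N.permanent = N'.permanent := by
  classical
  set f : Fin m'' ≃ {i : Fin m // (i : ℕ) < m''} :=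
    { toFun := fun a => ⟨Fin.castLE h a, a.2⟩
      invFun := fun b => ⟨b.1, b.2⟩
      left_inv := fun a => by ext; rfl
      right_inv := fun b => by ext; rfl } with hf
  have hfa : ∀ a : Fin m'', ((f a : {i : Fin m // (i : ℕ) < m''}) : Fin m) = Fin.castLE h a :=
    fun a => rfl
  unfold Matrix.permanent
  symm
  apply Fintype.sum_of_injective (fun τ : Equiv.Perm (Fin m'') => τ.extendDomain f)
  · exact Equiv.Perm.extendDomainHom_injective f
  · intro s hs
    by_contra hne
    apply hs
    have hfix : ∀ i : Fin m, m'' ≤ (i : ℕ) → s i = i := by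
      intro i hi
      by_contra hcon
      apply hne
      apply Finset.prod_eq_zero (mem_univ i)
      rw [h2 _ _ hi, if_neg hcon]
    have hpres : ∀ i : Fin m, (i : ℕ) < m'' ↔ ((s i : Fin m) : ℕ) < m'' := by
      intro i
      constructor
      · intro hi
        by_contra hcon
        rw [not_lt] at hcon
        have h3 := hfix (s i) hcon
        have h4 := s.injective h3
        rw [h4] at hcon
        omega
      · intro hi
        by_contra hcon
        rw [not_lt] at hcon
        rw [hfix i hcon] at hi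
        omega
    refine ⟨f.permCongr.symm (s.subtypePerm fun i => (hpres i).symm), ?_⟩
    ext b
    by_cases hb : (b : ℕ) < m''
    · have h5 : b = ((f (f.symm ⟨b, hb⟩) : {i : Fin m // (i : ℕ) < m''}) : Fin m) := by
        rw [Equiv.apply_symm_apply]
      simp only
      rw [h5, Equiv.Perm.extendDomain_apply_image]
      simp
    · simp only
      rw [hfix b (not_lt.1 hb)]
      congr 1
      exact Equiv.Perm.extendDomain_apply_not_subtype _ _ hb
  · intro τ
    apply Fintype.prod_of_injective (fun a : Fin m'' => Fin.castLE h a)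
    · exact Fin.castLE_injective h
    · intro i hi
      have hi' : m'' ≤ (i : ℕ) := by
        by_contra hcon
        rw [not_le] at hcon
        exact hi ⟨⟨i, hcon⟩, by ext; rfl⟩
      rw [h2 _ _ hi', if_pos]
      exact Equiv.Perm.extendDomain_apply_not_subtype _ _ (not_lt.2 hi')
    · intro a
      have h6 := Equiv.Perm.extendDomain_apply_image τ f a
      rw [hfa, hfa] at h6
      rw [h6, h1]

theorem permPoly_corner (m m'' : ℕ) (h : m'' ≤ m) :
    MvPolynomial.aeval (fun v : Fin m × Fin m =>
      if hh : (v.1 : ℕ) < m'' ∧ (v.2 : ℕ) < m'' then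
        (MvPolynomial.X (⟨v.1, hh.1⟩, ⟨v.2, hh.2⟩) : MvPolynomial (Fin m'' × Fin m'') ℂ)
      else if v.1 = v.2 then 1 else 0) (permPoly m) = permPoly m'' := by
  have h1 : MvPolynomial.aeval (fun v : Fin m × Fin m =>
      if hh : (v.1 : ℕ) < m'' ∧ (v.2 : ℕ) < m'' then
        (MvPolynomial.X (⟨v.1, hh.1⟩, ⟨v.2, hh.2⟩) : MvPolynomial (Fin m'' × Fin m'') ℂ)
      else if v.1 = v.2 then 1 else 0) (permPoly m) =
      (Matrix.of fun i j : Fin m => if hh : (i : ℕ) < m'' ∧ (j : ℕ) < m'' then
        (MvPolynomial.X (⟨i, hh.1⟩, ⟨j, hh.2⟩) : MvPolynomial (Fin m'' × Fin m'') ℂ)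
      else if i = j then 1 else 0).permanent := by
    unfold permPoly Matrix.permanent
    rw [map_sum]
    refine Finset.sum_congr rfl fun s _ => ?_
    rw [map_prod]
    refine Finset.prod_congr rfl fun i _ => ?_
    rw [Matrix.of_apply, aeval_X, Matrix.of_apply]
  rw [h1]
  unfold permPoly
  apply permanent_corner h
  · intro i j
    rw [Matrix.of_apply, Matrix.of_apply, dif_pos ⟨i.2, j.2⟩]
    rfl
  · intro i j hj
    rw [Matrix.of_apply, dif_neg]
    rintro ⟨_, hlt⟩
    omega

end L5helper67.DC
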