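import Pool.Agent.L5helper59.DC.Defs

/-!
Naturality of `sig` and the nondegenerate points of the assembled polynomial.
-/

namespace L5helper67.DC

open Finset MvPolynomial L5helper59.DC

set_option linter.unusedSectionVars false

theorem map_lin {R R' : Type*} [CommRing R] [CommRing R'] (φ : R →+* R') {γ : Type*} [Fintype γ]
    (a : γ → R) : MvPolynomial.map φ (lin a) = lin (fun j => φ (a j)) := by
  simp [lin, map_sum]

theorem map_esr {R R' : Type*} [CommRing R] [CommRing R'] (φ : R →+* R') {ρ γ : Type*}
    [Fintype γ] (T : Finset ρ) (r : ℕ) (y : ρ → γ → R) :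
    MvPolynomial.map φ (esr T r y) = esr T r (fun i j => φ (y i j)) := by
  unfold esr
  rw [map_sum]
  refine Finset.sum_congr rfl fun S _ => ?_
  rw [map_prod]
  exact Finset.prod_congr rfl fun i _ => map_lin φ _

theorem map_sqf {R R' : Type*} [CommRing R] [CommRing R'] (φ : R →+* R') {γ : Type*} [Fintype γ]
    [DecidableEq γ] (r : ℕ) (P : MvPolynomial γ R) :
    φ (sqf r P) = sqf r (MvPolynomial.map φ P) := by
  unfold sqf
  rw [map_sum]
  exact Finset.sum_congr rfl fun C _ => (coeff_map _ _ _).symm

theorem map_sig {R R' : Type*} [CommRing R] [CommRing R'] (φ : R →+* R') {ρ γ : Type*}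
    [Fintype ρ] [Fintype γ] [DecidableEq γ] (r : ℕ) (y : ρ → γ → R) :
    φ (sig r y) = sig r (fun i j => φ (y i j)) := by
  unfold sig
  rw [map_sqf, map_esr]

/-- the derivative of a renamed polynomial in a variable outside the range -/
theorem pderiv_rename_of_notMem {σ τ : Type*} (f : σ → τ) (i : τ) (h : i ∉ Set.range f)
    (P : MvPolynomial σ ℂ) : pderiv i (rename f P) = 0 := by
  classical
  apply pderiv_eq_zero_of_notMem_vars
  intro hm
  have h1 := vars_rename f P hm
  rw [Finset.mem_image] at h1
  obtain ⟨a, _, ha⟩ := h1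
  exact h ⟨a, ha⟩

section Points

variable {V : Type} [Fintype V] [DecidableEq V] {κ : ℕ} (σ : MvPolynomial V ℂ) (lam : Fin κ → ℂ)
  (mu : ℂ)

/-- the assembled polynomial: `∑ l, lam l • σ(block l) + mu • x₀` -/
noncomputable def asm : MvPolynomial (Option (Fin κ × V)) ℂ :=
  ∑ l, C (lam l) * rename (fun v => some (l, v)) σ + C mu * X none

/-- the point with given blocks and the value of `x₀` -/
def pt (x : ℂ) (p : Fin κ → V → ℂ) : Option (Fin κ × V) → ℂ := fun o =>
  match o with
  | none => x
  | some (l, v) => p l v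

theorem inj_some (l : Fin κ) : Function.Injective (fun v : V => some (l, v)) := by
  intro a b h
  simpa using h

theorem pderiv_asm_none : pderiv none (asm σ lam mu) = C mu := by
  unfold asm
  rw [map_add, map_sum, Finset.sum_eq_zero]
  · simp
  · intro l _
    rw [pderiv_C_mul, pderiv_rename_of_notMem]
    · simp
    · rintro ⟨v, hv⟩
      simp at hv

theorem pderiv_asm_some (l : Fin κ) (v : V) : pderiv (some (l, v)) (asm σ lam mu) =
    C (lam l) * rename (fun v => some (l, v)) (pderiv v σ) := by
  unfold asm
  rw [map_add, map_sum, Finset.sum_eq_single l]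
  · rw [pderiv_C_mul, pderiv_C_mul, pderiv_X_of_ne (by simp)]
    have := pderiv_rename (inj_some (V := V) l) v σ
    rw [this]
    simp
  · intro l' _ hl'
    rw [pderiv_C_mul, pderiv_rename_of_notMem]
    · simp
    · rintro ⟨w, hw⟩
      simp at hw
      exact hl' hw.1
  · simp

theorem pderiv2_asm_some_some (l : Fin κ) (v v' : V) :
    pderiv (some (l, v')) (pderiv (some (l, v)) (asm σ lam mu)) =
    C (lam l) * rename (fun v => some (l, v)) (pderiv v' (pderiv v σ)) := by
  rw [pderiv_asm_some, pderiv_C_mul]
  have := pderiv_rename (inj_some (V := V) l) v' (pderiv v σ)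
  rw [this]

theorem pderiv2_asm_other (l l' : Fin κ) (v v' : V) (h : l' ≠ l) :
    pderiv (some (l', v')) (pderiv (some (l, v)) (asm σ lam mu)) = 0 := by
  rw [pderiv_asm_some, pderiv_C_mul, pderiv_rename_of_notMem]
  · simp
  · rintro ⟨w, hw⟩
    simp at hw
    exact h hw.1.symm

theorem pderiv2_asm_none (l : Fin κ) (v : V) :
    pderiv none (pderiv (some (l, v)) (asm σ lam mu)) = 0 := by
  rw [pderiv_asm_some, pderiv_C_mul, pderiv_rename_of_notMem]
  · simp
  · rintro ⟨w, hw⟩
    simp at hw

theorem eval_pt_rename (x : ℂ) (p : Fin κ → V → ℂ) (l : Fin κ) (P : MvPolynomial V ℂ) :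
    eval (pt x p) (rename (fun v => some (l, v)) P) = eval (p l) P := by
  rw [eval_rename]
  rfl

theorem eval_asm (x : ℂ) (p : Fin κ → V → ℂ) :
    eval (pt x p) (asm σ lam mu) = ∑ l, lam l * eval (p l) σ + mu * x := by
  unfold asm
  rw [map_add, map_sum]
  simp only [map_mul, eval_C, eval_X]
  congr 1
  exact Finset.sum_congr rfl fun l _ => by rw [eval_pt_rename]

/-- the directions -/
noncomputable def dir (c : V → ℂ) (e : Fin κ × V) : Option (Fin κ × V) → ℂ := fun o =>
  match o with
  | none => -(lam e.1 * c e.2 / mu)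
  | some e' => if e' = e then 1 else 0

theorem sum_dir (c : V → ℂ) (e : Fin κ × V) (g : Option (Fin κ × V) → ℂ) :
    ∑ i, dir lam mu c e i * g i = g (some e) - lam e.1 * c e.2 / mu * g none := by
  rw [Fintype.sum_option]
  simp only [dir]
  rw [Finset.sum_eq_single e]
  · rw [if_pos rfl]; ring
  · intro b _ hb
    rw [if_neg hb, zero_mul]
  · simp

/-- the points of the assembled polynomial -/
theorem asm_points (hlam : ∀ l, lam l ≠ 0) (hmu : mu ≠ 0) (c : V → ℂ) (S : Finset (V → ℂ))
    (h1 : ∀ p ∈ S, ∀ v, eval p (pderiv v σ) = c v)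
    (h2 : ∀ p ∈ S, ∀ z : V → ℂ,
      (∀ v, ∑ v', z v' * eval p (pderiv v' (pderiv v σ)) = 0) → z = 0) :
    ∃ T : Finset (Option (Fin κ × V) → ℂ), T.card = S.card ^ κ ∧
      (∀ p ∈ T, eval p (asm σ lam mu) = 0) ∧
      (∀ p ∈ T, ∀ e, ∑ i, dir lam mu c e i * eval p (pderiv i (asm σ lam mu)) = 0) ∧
      (∀ p ∈ T, ∀ z : Option (Fin κ × V) → ℂ,
        ∑ i, z i * eval p (pderiv i (asm σ lam mu)) = 0 →
        (∀ e, ∑ i, ∑ j, z j * dir lam mu c e i *
          eval p (pderiv j (pderiv i (asm σ lam mu))) = 0) → z = 0) := by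
  classical
  set x : (Fin κ → V → ℂ) → ℂ := fun p => -(∑ l, lam l * eval (p l) σ) / mu with hx
  have hinj : Function.Injective fun p : Fin κ → V → ℂ => pt (x p) p := by
    intro p p' h
    funext l v
    exact congrFun h (some (l, v))
  refine ⟨(Fintype.piFinset fun _ : Fin κ => S).map ⟨_, hinj⟩, ?_, ?_, ?_, ?_⟩
  · rw [Finset.card_map, Fintype.card_piFinset]
    simp
  · intro P hP
    rw [Finset.mem_map] at hP
    obtain ⟨p, _, rfl⟩ := hP
    change eval (pt (x p) p) (asm σ lam mu) = 0
    rw [eval_asm, hx]
    field_simp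
    ring
  · intro P hP e
    rw [Finset.mem_map] at hP
    obtain ⟨p, hp, rfl⟩ := hP
    rw [Fintype.mem_piFinset] at hp
    change ∑ i, dir lam mu c e i * eval (pt (x p) p) (pderiv i (asm σ lam mu)) = 0
    rw [sum_dir lam mu c e (fun i => eval (pt (x p) p) (pderiv i (asm σ lam mu)))]
    obtain ⟨l, v⟩ := e
    simp only
    rw [pderiv_asm_none, pderiv_asm_some, map_mul, eval_pt_rename, h1 _ (hp l)]
    simp only [eval_C]
    field_simp
    ring
  · intro P hP z hz1 hz2
    rw [Finset.mem_map] at hP
    obtain ⟨p, hp, rfl⟩ := hP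
    rw [Fintype.mem_piFinset] at hp
    change ∑ i, z i * eval (pt (x p) p) (pderiv i (asm σ lam mu)) = 0 at hz1
    change ∀ e, ∑ i, ∑ j, z j * dir lam mu c e i *
          eval (pt (x p) p) (pderiv j (pderiv i (asm σ lam mu))) = 0 at hz2
    have hblock : ∀ l v, z (some (l, v)) = 0 := by
      intro l
      have h3 : (fun v => z (some (l, v))) = 0 := by
        apply h2 (p l) (hp l)
        intro v
        have h4 := hz2 (l, v)
        have h5 : ∑ i, ∑ j, z j * dir lam mu c (l, v) i *
            eval (pt (x p) p) (pderiv j (pderiv i (asm σ lam mu))) =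
            ∑ i, dir lam mu c (l, v) i *
              ∑ j, z j * eval (pt (x p) p) (pderiv j (pderiv i (asm σ lam mu))) := by
          refine Finset.sum_congr rfl fun i _ => ?_
          rw [Finset.mul_sum]
          exact Finset.sum_congr rfl fun j _ => by ring
        rw [h5, sum_dir lam mu c (l, v) (fun i => ∑ j, z j *
          eval (pt (x p) p) (pderiv j (pderiv i (asm σ lam mu))))] at h4
        have h6 : ∑ j, z j * eval (pt (x p) p) (pderiv j (pderiv none (asm σ lam mu))) = 0 := by
          apply Finset.sum_eq_zero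
          intro j _
          rw [pderiv_asm_none]
          simp
        simp only at h4
        rw [h6, mul_zero, sub_zero, Fintype.sum_option, pderiv2_asm_none, map_zero, mul_zero,
          zero_add, Fintype.sum_prod_type] at h4
        rw [Finset.sum_eq_single l] at h4
        · have h7 : ∀ v', z (some (l, v')) *
              eval (pt (x p) p) (pderiv (some (l, v')) (pderiv (some (l, v)) (asm σ lam mu))) =
              lam l * (z (some (l, v')) * eval (p l) (pderiv v' (pderiv v σ))) := by
            intro v'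
            rw [pderiv2_asm_some_some, map_mul, eval_pt_rename, eval_C]
            ring
          rw [Finset.sum_congr rfl fun v' _ => h7 v', ← Finset.mul_sum] at h4
          exact (mul_eq_zero.1 h4).resolve_left (hlam l)
        · intro l' _ hl'
          apply Finset.sum_eq_zero
          intro v' _
          rw [pderiv2_asm_other σ lam mu l l' v v' hl', map_zero, mul_zero]
        · simp
      intro v
      exact congrFun h3 v
    rw [Fintype.sum_option, Finset.sum_eq_zero (s := univ) (f := fun e : Fin κ × V =>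
      z (some e) * eval (pt (x p) p) (pderiv (some e) (asm σ lam mu))), add_zero,
      pderiv_asm_none, eval_C] at hz1
    · funext o
      match o with
      | none => exact (mul_eq_zero.1 hz1).resolve_right hmu
      | some (l, v) => exact hblock l v
    · intro e _
      obtain ⟨l, v⟩ := e
      rw [hblock l v, zero_mul]

end Points

end L5helper67.DC
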