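import Pool.Agent.L5helper59.DC.Defs

/-!
The sum of the subpermanents of a corner matrix.
-/

namespace L5helper67.DC

open Finset MvPolynomial L5helper59.DC

/-- the exponent of a squarefree monomial determines the set -/
theorem sum_single_inj {γ : Type*} [DecidableEq γ] (C C' : Finset γ)
    (h : ∑ j ∈ C, Finsupp.single j 1 = ∑ j ∈ C', (Finsupp.single j 1 : γ →₀ ℕ)) : C = C' := by
  have h1 : ∀ (D : Finset γ) (a : γ), (∑ j ∈ D, (Finsupp.single j 1 : γ →₀ ℕ)) a =
      if a ∈ D then 1 else 0 := by
    intro D a
    rw [Finsupp.finsetSum_apply]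
    simp only [Finsupp.single_apply]
    rw [Finset.sum_ite_eq' D a (fun _ => 1)]
  ext a
  have h2 := DFunLike.congr_fun h a
  rw [h1, h1] at h2
  by_cases ha : a ∈ C <;> by_cases ha' : a ∈ C' <;> simp [ha, ha'] at h2 ⊢

theorem sig_corner {R : Type*} [CommRing R] {ρ γ : Type*} [Fintype ρ] [Fintype γ]
    [DecidableEq ρ] [DecidableEq γ] (r : ℕ) (f : Fin (r + 1) ↪ ρ) (g : Fin (r + 1) ↪ γ) (x : R) :
    sig (r + 1) (fun i j => ∑ t : Fin (r + 1),
      if i = f t ∧ j = g t then (if t = 0 then x else 1) else (0 : R)) = x := by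
  set y : ρ → γ → R := fun i j => ∑ t : Fin (r + 1),
      if i = f t ∧ j = g t then (if t = 0 then x else 1) else (0 : R) with hy
  set c : Fin (r + 1) → R := fun t => if t = 0 then x else 1 with hc
  have hlin1 : ∀ t, lin (y (f t)) = C (c t) * X (g t) := by
    intro t
    unfold lin
    have h1 : ∀ j, y (f t) j = if j = g t then c t else 0 := by
      intro j
      simp only [hy]
      rw [Finset.sum_eq_single t]
      · simp [hc]
      · intro t' _ ht'
        rw [if_neg]
        rintro ⟨h, _⟩
        exact ht' (f.injective h).symm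
      · simp
    rw [Finset.sum_eq_single (g t)]
    · rw [h1, if_pos rfl]
    · intro j _ hj
      rw [h1, if_neg hj]
      simp
    · simp
  have hlin2 : ∀ i, i ∉ (univ.map f) → lin (y i) = 0 := by
    intro i hi
    unfold lin
    apply Finset.sum_eq_zero
    intro j _
    have h1 : y i j = 0 := by
      simp only [hy]
      apply Finset.sum_eq_zero
      intro t _
      rw [if_neg]
      rintro ⟨h, _⟩
      exact hi (Finset.mem_map.2 ⟨t, mem_univ _, h.symm⟩)
    rw [h1]
    simp
  have hcardf : (univ.map f).card = r + 1 := by simp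
  have hcardg : (univ.map g).card = r + 1 := by simp
  have hesr : esr univ (r + 1) y =
      monomial (∑ j ∈ univ.map g, Finsupp.single j 1) x := by
    unfold esr
    rw [Finset.sum_eq_single (univ.map f)]
    · rw [Finset.prod_map]
      rw [Finset.prod_congr rfl fun t _ => hlin1 t, Finset.prod_mul_distrib]
      have h1 : ∏ t, (C (c t) : MvPolynomial γ R) = C x := by
        rw [← map_prod]
        congr 1
        rw [Fin.prod_univ_succ]
        simp [hc]
      have h2 : ∏ t, (X (g t) : MvPolynomial γ R) =
          monomial (∑ j ∈ univ.map g, Finsupp.single j 1) 1 := by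
        rw [monomial_sum_one, Finset.prod_map]
        rfl
      rw [h1, h2, C_mul_monomial, mul_one]
    · intro S hS hne
      rw [mem_powersetCard] at hS
      have h1 : ∃ i ∈ S, i ∉ univ.map f := by
        by_contra hcon
        push Not at hcon
        exact hne (Finset.eq_of_subset_of_card_le hcon (by rw [hcardf, hS.2]))
      obtain ⟨i, hi, hi'⟩ := h1
      exact Finset.prod_eq_zero hi (hlin2 i hi')
    · intro h
      exact absurd (mem_powersetCard.2 ⟨subset_univ _, hcardf⟩) h
  unfold sig
  rw [hesr]
  unfold sqf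
  rw [Finset.sum_eq_single (univ.map g)]
  · rw [coeff_monomial, if_pos rfl]
  · intro D _ hD
    rw [coeff_monomial, if_neg]
    intro h
    exact hD (sum_single_inj _ _ h).symm
  · intro h
    exact absurd (mem_powersetCard.2 ⟨subset_univ _, hcardg⟩) h

end L5helper67.DC
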