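import Pool.Agent.L5helper67.DC.Assembly
import Pool.Agent.L5helper67.DC.Corner
import Pool.Agent.L5helper67.DC.PermCorner
import Pool.Agent.L5helper59.DC.Nondeg

/-!
The assembly with the landed parts filled in; `GadgetStmt`, `BlockStmt`, `PersistStmt` remain.
-/

namespace L5helper67.DC

open Finset MvPolynomial L5helper59.DC

theorem borderRep_mono (m m' M : ℕ) (h : m' ≤ m) (H : BorderRep m M) : BorderRep m' M :=
  borderRep_mono_of permPoly_corner m m' M h H

theorem assembly_two (hG : GadgetStmt) (hB : BlockStmt) (hP : @PersistStmt) :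
    ∃ B : ℕ → Finset ℕ, (∀ q, (B q).card ≤ (q.factorial) ^ 2 * (2 * q)) ∧
    ∀ q n κ m M, 2 ≤ q → 2 ≤ n → n ∉ B q → 1 ≤ κ →
      m + (q + 1) = n * (q.factorial) ^ 2 + (κ + 1) * (2 * q) → BorderRep m M →
      ∀ a b : ℕ, 1 ≤ a → 1 ≤ b →
      (((q.factorial) ^ 2).factorial) ^ (n * κ) *
          (a ^ (κ * (n * (q.factorial) ^ 2 * (2 * q)) + 1) * b ^ (2 * M)) ≤
        (a + b) ^ (2 * M + 1) * (2 * b) ^ (κ * (n * (q.factorial) ^ 2 * (2 * q))) :=
  assembly_of hG hB hP
    (fun hcard m F A hA hdet w S h0 h1 hnd a b ha hb =>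
      card_nondeg_le hcard m F A hA hdet w S h0 h1 hnd a b ha hb)
    (fun r f g x => sig_corner r f g x)

end L5helper67.DC
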