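import Pool.Agent.L5helper59.DC.Defs

/-!
Coefficientwise limits, degrees and substitutions.
-/

namespace L5helper67.DC

open Finset MvPolynomial L5helper59.DC

/-- evaluation at polynomials as a sum over a fixed box of exponents -/
theorem aeval_eq_box {ι ι' : Type*} [Fintype ι] [DecidableEq ι] (θ : ι → MvPolynomial ι' ℂ)
    (D : ℕ) (P : MvPolynomial ι ℂ) (hP : ∀ e, D < e.degree → coeff e P = 0) :
    aeval θ P = ∑ e ∈ Finset.Icc (0 : ι →₀ ℕ) (Finsupp.equivFunOnFinite.symm fun _ : ι => D),
      C (coeff e P) * ∏ i, θ i ^ e i := by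
  rw [aeval_def, eval₂_eq']
  apply Finset.sum_subset
  · intro e he
    rw [Finset.mem_Icc]
    refine ⟨zero_le, ?_⟩
    intro i
    rw [mem_support_iff] at he
    have h1 : e.degree ≤ D := by
      by_contra hlt
      exact he (hP e (not_le.1 hlt))
    have h2 : e i ≤ e.degree := Finsupp.le_degree i e
    exact le_trans h2 h1
  · intro e _ he
    rw [notMem_support_iff] at he
    simp [he]

/-- coefficientwise limits of polynomials of bounded degree are preserved by substitutions -/
theorem coeff_tendsto_aeval {ι ι' : Type*} [Fintype ι] [DecidableEq ι]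
    (θ : ι → MvPolynomial ι' ℂ) (D : ℕ) (F : MvPolynomial ι ℂ) (Fk : ℕ → MvPolynomial ι ℂ)
    (hdeg : ∀ k, (Fk k).totalDegree ≤ D)
    (hlim : ∀ d, Filter.Tendsto (fun k => coeff d (Fk k)) Filter.atTop (nhds (coeff d F))) :
    ∀ d, Filter.Tendsto (fun k => coeff d (aeval θ (Fk k))) Filter.atTop
      (nhds (coeff d (aeval θ F))) := by
  have h0 : ∀ k e, D < e.degree → coeff e (Fk k) = 0 := by
    intro k e he
    apply coeff_eq_zero_of_totalDegree_lt
    exact lt_of_le_of_lt (hdeg k) he
  have h1 : ∀ e, D < e.degree → coeff e F = 0 := by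
    intro e he
    have h2 := hlim e
    have h3 : (fun k => coeff e (Fk k)) = fun _ => (0 : ℂ) := by
      funext k
      exact h0 k e he
    rw [h3] at h2
    exact tendsto_nhds_unique h2 tendsto_const_nhds
  intro d
  rw [aeval_eq_box θ D F h1]
  have h4 : (fun k => coeff d (aeval θ (Fk k))) = fun k =>
      ∑ e ∈ Finset.Icc (0 : ι →₀ ℕ) (Finsupp.equivFunOnFinite.symm fun _ : ι => D),
        coeff e (Fk k) * coeff d (∏ i, θ i ^ e i) := by
    funext k
    rw [aeval_eq_box θ D (Fk k) (h0 k), coeff_sum]
    exact Finset.sum_congr rfl fun e _ => by rw [coeff_C_mul]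
  rw [h4, coeff_sum]
  apply tendsto_finsetSum
  intro e _
  rw [coeff_C_mul]
  exact (hlim e).mul_const _

/-- substituting affine forms into a polynomial -/
theorem totalDegree_aeval_le {ι ι' : Type*} [Fintype ι] (θ : ι → MvPolynomial ι' ℂ)
    (hθ : ∀ i, (θ i).totalDegree ≤ 1) (P : MvPolynomial ι ℂ) :
    (aeval θ P).totalDegree ≤ P.totalDegree := by
  rw [aeval_def, eval₂_eq']
  apply totalDegree_finsetSum_le
  intro e he
  refine le_trans (totalDegree_mul _ _) ?_
  have h1 : ((algebraMap ℂ (MvPolynomial ι' ℂ)) (coeff e P)).totalDegree = 0 := by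
    rw [algebraMap_eq, totalDegree_C]
  rw [h1, zero_add]
  refine le_trans (totalDegree_finsetProd _ _) ?_
  refine le_trans (Finset.sum_le_sum (g := fun i => e i) fun i _ => ?_) ?_
  · refine le_trans (totalDegree_pow _ _) ?_
    calc e i * (θ i).totalDegree ≤ e i * 1 := Nat.mul_le_mul_left _ (hθ i)
      _ = e i := mul_one _
  · have h2 := le_totalDegree he
    rw [Finsupp.sum_fintype _ _ (fun _ => rfl)] at h2
    exact h2

/-- the determinant of a matrix of affine forms -/
theorem totalDegree_det_le {ι : Type*} {n : ℕ} (A : Matrix (Fin n) (Fin n) (MvPolynomial ι ℂ))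
    (hA : ∀ i j, (A i j).totalDegree ≤ 1) : A.det.totalDegree ≤ n := by
  rw [Matrix.det_apply]
  apply totalDegree_finsetSum_le
  intro s _
  refine le_trans (totalDegree_smul_le _ _) ?_
  refine le_trans (totalDegree_finsetProd _ _) ?_
  refine le_trans (Finset.sum_le_sum (g := fun _ => 1) fun i _ => hA _ _) ?_
  simp

/-- a border representation of the permanent gives border representations of all its
substitution instances by affine forms -/
theorem border_subst {ι : Type*} {m M : ℕ} (H : BorderRep m M)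
    (θ : Fin m × Fin m → MvPolynomial ι ℂ) (hθ : ∀ v, (θ v).totalDegree ≤ 1) :
    ∃ A : ℕ → Matrix (Fin (M + 1)) (Fin (M + 1)) (MvPolynomial ι ℂ),
      (∀ k i j, (A k i j).totalDegree ≤ 1) ∧
      ∀ d, Filter.Tendsto (fun k => coeff d (A k).det) Filter.atTop
        (nhds (coeff d (aeval θ (permPoly m)))) := by
  obtain ⟨A, hA, hlim⟩ := H
  refine ⟨fun k => (A k).map (aeval θ), ?_, ?_⟩
  · intro k i j
    exact le_trans (totalDegree_aeval_le θ hθ _) (hA k i j)
  · intro d
    have h1 := coeff_tendsto_aeval θ (M + 1) (permPoly m) (fun k => (A k).det)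
      (fun k => totalDegree_det_le _ (hA k)) hlim d
    have h2 : ∀ k, ((A k).map (aeval θ)).det = aeval θ (A k).det := by
      intro k
      have := AlgHom.map_det (aeval θ : MvPolynomial (Fin m × Fin m) ℂ →ₐ[ℂ] MvPolynomial ι ℂ)
        (A k)
      rw [this]
      rfl
    simp only [h2]
    exact h1

end L5helper67.DC
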