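import Pool.Agent.L5helper67.DC.Limits
import Pool.Agent.L5helper67.DC.Points

/-!
Assembly of the superquadratic lower bound: the four parts are hypotheses here.
-/

namespace L5helper67.DC

open Finset MvPolynomial L5helper59.DC

set_option linter.unusedSectionVars false

/-- statement of the part Gadget -/
def GadgetStmt : Prop :=
  ∀ (κ r : ℕ), 1 ≤ κ → 1 ≤ r → ∀ (ρ γ : Type) [Fintype ρ] [Fintype γ]
    [DecidableEq ρ] [DecidableEq γ], r ≤ Fintype.card ρ → r ≤ Fintype.card γ →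
    ∃ (m : ℕ) (M : Matrix (Fin m) (Fin m) (MvPolynomial (ρ × Fin κ × γ) ℂ)) (lam : Fin κ → ℂ),
      m + r = Fintype.card ρ + κ * Fintype.card γ ∧ (∀ l, lam l ≠ 0) ∧
      (∀ a b, (∃ v, M a b = MvPolynomial.X v) ∨ (∃ c, M a b = MvPolynomial.C c)) ∧
      M.permanent = ∑ l, MvPolynomial.C (lam l) *
        sig r (fun (i : ρ) (j : γ) => MvPolynomial.X (R := ℂ) (i, l, j))

/-- statement of the part Roots -/
def BlockStmt : Prop :=
  ∀ (q : ℕ) [NeZero q], 2 ≤ q →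
    ∃ B : Finset ℕ, B.card ≤ (q.factorial) ^ 2 * (2 * q) ∧ ∀ n : ℕ, 2 ≤ n → n ∉ B →
      ∃ (c : (Fin n × Typ q) × (Fin 2 × ZMod q) → ℂ)
        (S : Finset ((Fin n × Typ q) × (Fin 2 × ZMod q) → ℂ)),
        S.card = ((q.factorial) ^ 2).factorial ^ n ∧
        (∀ p ∈ S, ∀ v, eval p (pderiv v (sig (q + 1) (gen (Fin n × Typ q) (Fin 2 × ZMod q)))) =
          c v) ∧
        (∀ p ∈ S, ∀ z : (Fin n × Typ q) × (Fin 2 × ZMod q) → ℂ,
          (∀ v, ∑ v', z v' * eval p (pderiv v' (pderiv v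
            (sig (q + 1) (gen (Fin n × Typ q) (Fin 2 × ZMod q))))) = 0) → z = 0)

/-- statement of the part Persist -/
def PersistStmt : Prop :=
  ∀ {ι κ : Type} [Fintype ι] [Fintype κ] [DecidableEq ι] [DecidableEq κ]
    (_ : Fintype.card ι = Fintype.card κ + 1) (F : MvPolynomial ι ℂ)
    (Fk : ℕ → MvPolynomial ι ℂ) (D : ℕ) (_ : ∀ k, (Fk k).totalDegree ≤ D)
    (_ : ∀ m, Filter.Tendsto (fun k => coeff m (Fk k)) Filter.atTop (nhds (coeff m F)))
    (w : κ → ι → ℂ) (S : Finset (ι → ℂ)) (_ : ∀ p ∈ S, eval p F = 0)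
    (_ : ∀ p ∈ S, ∀ e, ∑ i, w e i * eval p (pderiv i F) = 0)
    (_ : ∀ p ∈ S, ∀ z : ι → ℂ, ∑ i, z i * eval p (pderiv i F) = 0 →
      (∀ e, ∑ i, ∑ j, z j * w e i * eval p (pderiv j (pderiv i F)) = 0) → z = 0),
    ∃ k, ∃ S' : Finset (ι → ℂ), S'.card = S.card ∧ (∀ p ∈ S', eval p (Fk k) = 0) ∧
      (∀ p ∈ S', ∀ e, ∑ i, w e i * eval p (pderiv i (Fk k)) = 0) ∧
      (∀ p ∈ S', ∀ z : ι → ℂ, ∑ i, z i * eval p (pderiv i (Fk k)) = 0 →
        (∀ e, ∑ i, ∑ j, z j * w e i * eval p (pderiv j (pderiv i (Fk k))) = 0) → z = 0)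

/-- statement of the part Nondeg -/
def NondegStmt : Prop :=
  ∀ {ι κ : Type} [Fintype ι] [Fintype κ] [DecidableEq ι] [DecidableEq κ]
    (_ : Fintype.card ι = Fintype.card κ + 1) (m : ℕ) (F : MvPolynomial ι ℂ)
    (A : Matrix (Fin (m + 1)) (Fin (m + 1)) (MvPolynomial ι ℂ))
    (_ : ∀ i j, (A i j).totalDegree ≤ 1) (_ : A.det = F)
    (w : κ → ι → ℂ) (S : Finset (ι → ℂ)) (_ : ∀ p ∈ S, eval p F = 0)
    (_ : ∀ p ∈ S, ∀ e, ∑ i, w e i * eval p (pderiv i F) = 0)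
    (_ : ∀ p ∈ S, ∀ z : ι → ℂ, ∑ i, z i * eval p (pderiv i F) = 0 →
      (∀ e, ∑ i, ∑ j, z j * w e i * eval p (pderiv j (pderiv i F)) = 0) → z = 0)
    (a b : ℕ) (_ : 1 ≤ a) (_ : 1 ≤ b),
    S.card * (a ^ Fintype.card ι * b ^ (2 * m)) ≤
      (a + b) ^ (2 * m + 1) * (2 * b) ^ Fintype.card κ

/-- statement of the corner lemma for `sig` -/
def SigCornerStmt : Prop :=
  ∀ {R : Type} [CommRing R] {ρ γ : Type} [Fintype ρ] [Fintype γ]
    [DecidableEq ρ] [DecidableEq γ] (r : ℕ) (f : Fin (r + 1) ↪ ρ) (g : Fin (r + 1) ↪ γ) (x : R),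
    sig (r + 1) (fun i j => ∑ t : Fin (r + 1),
      if i = f t ∧ j = g t then (if t = 0 then x else 1) else (0 : R)) = x

/-- statement of the corner lemma for the permanent -/
def PermCornerStmt : Prop :=
  ∀ (m m'' : ℕ), m'' ≤ m → MvPolynomial.aeval (fun v : Fin m × Fin m =>
    if hh : (v.1 : ℕ) < m'' ∧ (v.2 : ℕ) < m'' then
      (MvPolynomial.X (⟨v.1, hh.1⟩, ⟨v.2, hh.2⟩) : MvPolynomial (Fin m'' × Fin m'') ℂ)
    else if v.1 = v.2 then 1 else 0) (permPoly m) = permPoly m''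

theorem borderRep_mono_of (hC : PermCornerStmt) (m m' M : ℕ) (h : m' ≤ m) (H : BorderRep m M) :
    BorderRep m' M := by
  have h1 := border_subst H (fun v : Fin m × Fin m =>
    if hh : (v.1 : ℕ) < m' ∧ (v.2 : ℕ) < m' then
      (MvPolynomial.X (⟨v.1, hh.1⟩, ⟨v.2, hh.2⟩) : MvPolynomial (Fin m' × Fin m') ℂ)
    else if v.1 = v.2 then 1 else 0) (by
      intro v
      split_ifs
      · rw [totalDegree_X]
      · simp
      · simp)
  rw [hC m m' h] at h1
  exact h1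

section

variable {ρ γ : Type} [Fintype ρ] [Fintype γ] [DecidableEq ρ] [DecidableEq γ]

/-- the substitution in the blocks: the last block becomes a corner matrix -/
noncomputable def blockSubst {κ r : ℕ} (f : Fin (r + 1) ↪ ρ) (g : Fin (r + 1) ↪ γ)
    (v : ρ × Fin (κ + 1) × γ) : MvPolynomial (Option (Fin κ × (ρ × γ))) ℂ :=
  Fin.lastCases (motive := fun _ => MvPolynomial (Option (Fin κ × (ρ × γ))) ℂ)
    (∑ t : Fin (r + 1), if v.1 = f t ∧ v.2.2 = g t then (if t = 0 then X none else 1) else 0)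
    (fun l => X (some (l, (v.1, v.2.2)))) v.2.1

theorem blockSubst_last {κ r : ℕ} (f : Fin (r + 1) ↪ ρ) (g : Fin (r + 1) ↪ γ) (i : ρ) (j : γ) :
    blockSubst (κ := κ) f g (i, Fin.last κ, j) =
      ∑ t : Fin (r + 1), if i = f t ∧ j = g t then (if t = 0 then X none else 1) else 0 := by
  simp [blockSubst]

theorem blockSubst_castSucc {κ r : ℕ} (f : Fin (r + 1) ↪ ρ) (g : Fin (r + 1) ↪ γ) (i : ρ)
    (l : Fin κ) (j : γ) :
    blockSubst f g (i, l.castSucc, j) = X (some (l, (i, j))) := by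
  simp [blockSubst]

theorem blockSubst_degree {κ r : ℕ} (f : Fin (r + 1) ↪ ρ) (g : Fin (r + 1) ↪ γ)
    (v : ρ × Fin (κ + 1) × γ) : (blockSubst f g v).totalDegree ≤ 1 := by
  obtain ⟨i, l, j⟩ := v
  refine Fin.lastCases ?_ (fun l => ?_) l
  · rw [blockSubst_last]
    apply totalDegree_finsetSum_le
    intro t _
    split_ifs
    · rw [totalDegree_X]
    · simp
    · simp
  · rw [blockSubst_castSucc, totalDegree_X]

theorem aeval_gadget (hS : SigCornerStmt) {κ r m : ℕ} (f : Fin (r + 1) ↪ ρ)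
    (g : Fin (r + 1) ↪ γ)
    (M : Matrix (Fin m) (Fin m) (MvPolynomial (ρ × Fin (κ + 1) × γ) ℂ)) (lam : Fin (κ + 1) → ℂ)
    (hM : M.permanent = ∑ l, MvPolynomial.C (lam l) *
        sig (r + 1) (fun (i : ρ) (j : γ) => MvPolynomial.X (R := ℂ) (i, l, j))) :
    aeval (fun v : Fin m × Fin m => aeval (blockSubst f g) (M v.1 v.2)) (permPoly m) =
      asm (sig (r + 1) (gen ρ γ)) (fun l : Fin κ => lam l.castSucc) (lam (Fin.last κ)) := by
  have h1 : aeval (fun v : Fin m × Fin m => aeval (blockSubst f g) (M v.1 v.2)) (permPoly m) =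
      aeval (blockSubst f g) M.permanent := by
    unfold permPoly Matrix.permanent
    rw [map_sum, map_sum]
    refine Finset.sum_congr rfl fun s _ => ?_
    rw [map_prod, map_prod]
    refine Finset.prod_congr rfl fun i _ => ?_
    simp
  rw [h1, hM, map_sum, Fin.sum_univ_castSucc]
  unfold asm
  congr 1
  · refine Finset.sum_congr rfl fun l _ => ?_
    rw [map_mul]
    congr 1
    · simp
    · have h2 := map_sig (aeval (R := ℂ) (blockSubst (κ := κ) f g)).toRingHom (r + 1)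
        (fun (i : ρ) (j : γ) => MvPolynomial.X (R := ℂ) (i, l.castSucc, j))
      have h3 := map_sig (rename (R := ℂ) (fun v : ρ × γ => some (l, v))).toRingHom (r + 1)
        (gen ρ γ)
      simp only [AlgHom.toRingHom_eq_coe, RingHom.coe_coe, aeval_X, blockSubst_castSucc] at h2
      simp only [AlgHom.toRingHom_eq_coe, RingHom.coe_coe, gen, rename_X] at h3
      rw [h2, ← h3]
  · rw [map_mul]
    congr 1
    · simp
    · have h2 := map_sig (aeval (R := ℂ) (blockSubst (κ := κ) f g)).toRingHom (r + 1)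
        (fun (i : ρ) (j : γ) => MvPolynomial.X (R := ℂ) (i, Fin.last κ, j))
      simp only [AlgHom.toRingHom_eq_coe, RingHom.coe_coe, aeval_X, blockSubst_last] at h2
      rw [h2]
      exact hS r f g (X none)

end

theorem assembly_of (hG : GadgetStmt) (hB : BlockStmt) (hP : @PersistStmt) (hN : @NondegStmt)
    (hS : @SigCornerStmt) :
    ∃ B : ℕ → Finset ℕ, (∀ q, (B q).card ≤ (q.factorial) ^ 2 * (2 * q)) ∧
    ∀ q n κ m M, 2 ≤ q → 2 ≤ n → n ∉ B q → 1 ≤ κ →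
      m + (q + 1) = n * (q.factorial) ^ 2 + (κ + 1) * (2 * q) → BorderRep m M →
      ∀ a b : ℕ, 1 ≤ a → 1 ≤ b →
      (((q.factorial) ^ 2).factorial) ^ (n * κ) *
          (a ^ (κ * (n * (q.factorial) ^ 2 * (2 * q)) + 1) * b ^ (2 * M)) ≤
        (a + b) ^ (2 * M + 1) * (2 * b) ^ (κ * (n * (q.factorial) ^ 2 * (2 * q))) := by
  classical
  have hB' : ∀ q : ℕ, ∃ B : Finset ℕ, B.card ≤ (q.factorial) ^ 2 * (2 * q) ∧
      (2 ≤ q → ∀ n : ℕ, 2 ≤ n → n ∉ B →
      ∃ (_ : NeZero q) (c : (Fin n × Typ q) × (Fin 2 × ZMod q) → ℂ)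
        (S : Finset ((Fin n × Typ q) × (Fin 2 × ZMod q) → ℂ)),
        S.card = ((q.factorial) ^ 2).factorial ^ n ∧
        (∀ p ∈ S, ∀ v, eval p (pderiv v (sig (q + 1) (gen (Fin n × Typ q) (Fin 2 × ZMod q)))) =
          c v) ∧
        (∀ p ∈ S, ∀ z : (Fin n × Typ q) × (Fin 2 × ZMod q) → ℂ,
          (∀ v, ∑ v', z v' * eval p (pderiv v' (pderiv v
            (sig (q + 1) (gen (Fin n × Typ q) (Fin 2 × ZMod q))))) = 0) → z = 0)) := by
    intro q
    by_cases hq : 2 ≤ q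
    · have : NeZero q := ⟨by omega⟩
      obtain ⟨B, h1, h2⟩ := hB q hq
      exact ⟨B, h1, fun _ n hn hnB => ⟨inferInstance, h2 n hn hnB⟩⟩
    · exact ⟨∅, by simp, fun h => absurd h hq⟩
  choose B hB1 hB2 using hB'
  refine ⟨B, hB1, ?_⟩
  intro q n κ m M hq hn hnB hκ hm H a b ha hb
  obtain ⟨hq0, c, S, hScard, hS1, hS2⟩ := hB2 q hq n hn hnB
  have hcρ : Fintype.card (Fin n × Typ q) = n * (q.factorial) ^ 2 := by
    rw [Fintype.card_prod, Fintype.card_fin, Fintype.card_fun, Fintype.card_perm, ZMod.card,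
      Fintype.card_fin]
  have hcγ : Fintype.card (Fin 2 × ZMod q) = 2 * q := by
    rw [Fintype.card_prod, Fintype.card_fin, ZMod.card]
  have hfq : q ≤ q.factorial := Nat.self_le_factorial q
  have hr1 : q + 1 ≤ Fintype.card (Fin n × Typ q) := by
    rw [hcρ]
    nlinarith
  have hr2 : q + 1 ≤ Fintype.card (Fin 2 × ZMod q) := by
    rw [hcγ]
    omega
  obtain ⟨m0, M0, lam, hm0, hlam, hent, hperm⟩ := hG (κ + 1) (q + 1) (by omega) (by omega)
    (Fin n × Typ q) (Fin 2 × ZMod q) hr1 hr2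
  have hmm : m0 = m := by
    rw [hcρ, hcγ] at hm0
    omega
  subst hmm
  obtain ⟨f⟩ : Nonempty (Fin (q + 1) ↪ (Fin n × Typ q)) := by
    rw [Function.Embedding.nonempty_iff_card_le, Fintype.card_fin]
    exact hr1
  obtain ⟨g⟩ : Nonempty (Fin (q + 1) ↪ (Fin 2 × ZMod q)) := by
    rw [Function.Embedding.nonempty_iff_card_le, Fintype.card_fin]
    exact hr2
  obtain ⟨A, hA, hlim⟩ := border_subst H
    (fun v : Fin m0 × Fin m0 => aeval (blockSubst (κ := κ) f g) (M0 v.1 v.2)) (by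
      intro v
      refine le_trans (totalDegree_aeval_le _ (blockSubst_degree f g) _) ?_
      rcases hent v.1 v.2 with ⟨w, hw⟩ | ⟨w, hw⟩
      · rw [hw, totalDegree_X]
      · rw [hw, totalDegree_C]
        exact zero_le_one)
  rw [aeval_gadget hS f g M0 lam hperm] at hlim
  obtain ⟨T, hTcard, hT0, hT1, hT2⟩ := asm_points (κ := κ)
    (sig (q + 1) (gen (Fin n × Typ q) (Fin 2 × ZMod q))) (fun l : Fin κ => lam l.castSucc)
    (lam (Fin.last κ)) (fun l => hlam _) (hlam _) c S hS1 hS2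
  have hcard : Fintype.card (Option (Fin κ × ((Fin n × Typ q) × (Fin 2 × ZMod q)))) =
      Fintype.card (Fin κ × ((Fin n × Typ q) × (Fin 2 × ZMod q))) + 1 := Fintype.card_option
  have hcard2 : Fintype.card (Fin κ × ((Fin n × Typ q) × (Fin 2 × ZMod q))) =
      κ * (n * (q.factorial) ^ 2 * (2 * q)) := by
    rw [Fintype.card_prod, Fintype.card_fin, Fintype.card_prod, hcρ, hcγ]
  obtain ⟨k, S', hS'card, hS'0, hS'1, hS'2⟩ := hP hcard _ (fun k => (A k).det) (M + 1)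
    (fun k => totalDegree_det_le _ (hA k)) hlim _ T hT0 hT1 hT2
  have hfin := hN hcard M _ (A k) (hA k) rfl _ S' hS'0 hS'1 hS'2 a b ha hb
  rw [hcard, hcard2, hS'card, hTcard, hScard, ← pow_mul] at hfin
  exact hfin

end L5helper67.DC
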